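import Pool.Agent.V7H85.OK.Spec

set_option autoImplicit false

/-! # MP_1774d7_an, piece SPEC: the nonzero eigenvalues are real and simple -/

namespace Pool.Agent.V7H54.OK

open Polynomial Finset Matrix Pool.Agent.V7H85.OK

/-- a complex eigenvector -/
lemma eigen {w : ℕ} (M : Matrix (Fin w) (Fin w) ℂ) (z : ℂ) (h : M.charpoly.IsRoot z) :
    ∃ v : Fin w → ℂ, v ≠ 0 ∧ M *ᵥ v = z • v := by
  have h1 : (Matrix.scalar (Fin w) z - M).det = 0 := by
    rw [← Matrix.eval_charpoly]; exact h
  obtain ⟨v, hv, h2⟩ := Matrix.exists_mulVec_eq_zero_iff.2 h1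
  refine ⟨v, hv, ?_⟩
  rw [Matrix.sub_mulVec, sub_eq_zero] at h2
  rw [← h2]
  funext i
  simp [Matrix.mulVec, dotProduct, Matrix.diagonal_apply]

/-- the piece SPEC -/
theorem t_SPEC : S_SPEC := by
  intro w M hA hB hC z hz hroot
  obtain ⟨v, hv, hMv⟩ := eigen _ z hroot
  have him : z.im = 0 := by
    by_contra hne
    refine hC (fun i => (v i).re) (fun i => (v i).im) z.re z.im hne ?_ ?_ ?_
    · by_contra hcon
      push Not at hcon
      apply hv
      funext i
      exact Complex.ext (congrFun hcon.1 i) (congrFun hcon.2 i)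
    · funext i
      have h1 := congrArg Complex.re (congrFun hMv i)
      simp only [Matrix.mulVec, dotProduct, Matrix.map_apply, Complex.re_sum,
        Pi.smul_apply, smul_eq_mul, Complex.mul_re, Complex.ofReal_re, Complex.ofReal_im,
        zero_mul, sub_zero] at h1
      simp only [Matrix.mulVec, dotProduct, Pi.sub_apply, Pi.smul_apply, smul_eq_mul]
      exact h1
    · funext i
      have h1 := congrArg Complex.im (congrFun hMv i)
      simp only [Matrix.mulVec, dotProduct, Matrix.map_apply, Complex.im_sum,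
        Pi.smul_apply, smul_eq_mul, Complex.mul_im, Complex.ofReal_re, Complex.ofReal_im,
        zero_mul, add_zero] at h1
      simp only [Matrix.mulVec, dotProduct, Pi.add_apply, Pi.smul_apply, smul_eq_mul]
      rw [h1]
      ring
  refine ⟨him, fun hder => ?_⟩
  obtain ⟨l, rfl⟩ : ∃ l : ℝ, z = Complex.ofRealHom l := ⟨z.re, Complex.ext (by simp) (by simp [him])⟩
  have hl : l ≠ 0 := by
    rintro rfl
    exact hz (map_zero _)
  have hmap : (M.map Complex.ofReal).charpoly = M.charpoly.map Complex.ofRealHom :=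
    Matrix.charpoly_map M Complex.ofRealHom
  rw [hmap] at hroot hder
  rw [Polynomial.derivative_map] at hder
  have hr1 : M.charpoly.IsRoot l :=
    (Polynomial.isRoot_map_iff Complex.ofRealHom.injective).1 hroot
  have hr2 : (derivative M.charpoly).IsRoot l :=
    (Polynomial.isRoot_map_iff Complex.ofRealHom.injective).1 hder
  have hmul : 1 < M.charpoly.rootMultiplicity l :=
    (Polynomial.one_lt_rootMultiplicity_iff_isRoot M.charpoly_monic.ne_zero).2 ⟨hr1, hr2⟩
  let f : Module.End ℝ (Fin w → ℝ) := Matrix.toLin' M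
  have hf : ∀ x, f x = M *ᵥ x := fun x => Matrix.toLin'_apply M x
  have hfin : 1 < Module.finrank ℝ (f.maxGenEigenspace l) := by
    rw [LinearMap.finrank_maxGenEigenspace_eq, Matrix.charpoly_toLin']
    exact hmul
  by_cases hall : ∀ x ∈ f.maxGenEigenspace l, f x = l • x
  · -- two independent eigenvectors
    have hpos : 0 < Module.finrank ℝ (f.maxGenEigenspace l) := lt_trans zero_lt_one hfin
    have : Nontrivial (f.maxGenEigenspace l) := Module.nontrivial_of_finrank_pos hpos
    obtain ⟨x, hx⟩ := exists_ne (0 : f.maxGenEigenspace l)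
    obtain ⟨y, hy⟩ := exists_linearIndependent_pair_of_one_lt_finrank hfin hx
    refine hA x.1 y.1 l hl ?_ ?_ ?_
    · have h1 := hy.map' (f.maxGenEigenspace l).subtype (Submodule.ker_subtype _)
      have e : (⇑(f.maxGenEigenspace l).subtype ∘ ![x, y]) = ![x.1, y.1] := by
        funext i
        fin_cases i <;> rfl
      rw [e] at h1
      exact h1
    · rw [← hf]; exact hall x.1 x.2
    · rw [← hf]; exact hall y.1 y.2
  · -- a Jordan chain
    push Not at hall
    obtain ⟨x, hx, hne⟩ := hall
    set N : Module.End ℝ (Fin w → ℝ) := f - l • (1 : Module.End ℝ (Fin w → ℝ)) with hN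
    have hNx : ∀ y, N y = f y - l • y := fun y => by simp [hN]
    rw [Module.End.mem_maxGenEigenspace] at hx
    classical
    obtain ⟨k, hk, hmin⟩ : ∃ k, (N ^ k) x = 0 ∧ ∀ j < k, (N ^ j) x ≠ 0 :=
      ⟨Nat.find hx, Nat.find_spec hx, fun j hj => Nat.find_min hx hj⟩
    have hk2 : 2 ≤ k := by
      by_contra hlt
      have : k = 0 ∨ k = 1 := by omega
      rcases this with rfl | rfl
      · rw [pow_zero, Module.End.one_apply] at hk
        apply hne
        rw [hk, map_zero, smul_zero]
      · rw [pow_one, hNx, sub_eq_zero] at hk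
        exact hne hk
    obtain ⟨j, rfl⟩ : ∃ j, k = j + 2 := ⟨k - 2, by omega⟩
    have e1 : (N ^ (j + 1)) x = N ((N ^ j) x) := by
      rw [pow_succ', Module.End.mul_apply]
    have e2 : (N ^ (j + 2)) x = N ((N ^ (j + 1)) x) := by
      rw [pow_succ' N (j + 1), Module.End.mul_apply]
    refine hB ((N ^ (j + 1)) x) ((N ^ j) x) l hl (hmin (j + 1) (by omega)) ?_ ?_
    · rw [← hf]
      rw [e2, hNx, sub_eq_zero] at hk
      exact hk
    · rw [← hf]
      rw [hNx] at e1
      rw [e1]
      abel

end Pool.Agent.V7H54.OK
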